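import Mathlib
import Pool.Agent.H713R2.AR.AF4

set_option autoImplicit false

open Complex Topology Filter Metric MeasureTheory Set

namespace Pool.Agent.H713R2.PD

open Pool.Agent.H713R2 Pool.Agent.H713R2.AR

/-- Mean value property over discs for a positive harmonic function. -/
theorem mean_value {G : ℂ → ℂ} {R : ℝ} (hR : 0 < R) (hG : DifferentiableOn ℂ G (ball 0 R))
    (hpos : ∀ z ∈ ball (0 : ℂ) R, 0 ≤ (G z).re) :
    ∫⁻ z in ball (0 : ℂ) R, ENNReal.ofReal (G z).re ≤ ENNReal.ofReal (Real.pi * R ^ 2 * (G 0).re) := by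
  have hpi := Real.pi_pos
  rw [← lintegral_indicator isOpen_ball.measurableSet, ← Complex.lintegral_comp_polarCoord_symm]
  set S : Set (ℝ × ℝ) := Ioo (0 : ℝ) R ×ˢ Ioo (-Real.pi) Real.pi with hS
  have hSm : MeasurableSet S := measurableSet_Ioo.prod measurableSet_Ioo
  have hmem : ∀ q : ℝ × ℝ, 0 < q.1 → ‖circleMap 0 q.1 q.2‖ = q.1 := by
    intro q hq
    rw [norm_circleMap_zero, abs_of_pos hq]
  have hT : MeasurableSet polarCoord.target := polarCoord.open_target.measurableSet
  -- reduce to S
  have h1 : ∫⁻ p in polarCoord.target, ENNReal.ofReal p.1 •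
      (ball (0 : ℂ) R).indicator (fun z => ENNReal.ofReal (G z).re) (Complex.polarCoord.symm p) =
      ∫⁻ q in S, ENNReal.ofReal (q.1 * (G (circleMap 0 q.1 q.2)).re) := by
    rw [← lintegral_indicator hT, ← lintegral_indicator hSm]
    congr 1
    funext q
    rw [polarCoord_target]
    by_cases hq : q ∈ Ioi (0 : ℝ) ×ˢ Ioo (-Real.pi) Real.pi
    · rw [indicator_of_mem hq, polar_eq_circleMap]
      have hq1 : 0 < q.1 := hq.1
      by_cases hqR : q.1 < R
      · have hqS : q ∈ S := ⟨⟨hq1, hqR⟩, hq.2⟩
        have hb : circleMap 0 q.1 q.2 ∈ ball (0 : ℂ) R := by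
          rw [mem_ball_zero_iff, hmem q hq1]; exact hqR
        rw [indicator_of_mem hb, indicator_of_mem hqS, smul_eq_mul, ← ENNReal.ofReal_mul hq1.le]
      · have hqS : q ∉ S := fun h => hqR h.1.2
        have hb : circleMap 0 q.1 q.2 ∉ ball (0 : ℂ) R := by
          rw [mem_ball_zero_iff, hmem q hq1]; exact hqR
        rw [indicator_of_notMem hb, indicator_of_notMem hqS, smul_zero]
    · have hqS : q ∉ S := fun h => hq ⟨h.1.1, h.2⟩
      rw [indicator_of_notMem hq, indicator_of_notMem hqS]
  rw [h1]
  have hcont : ContinuousOn (fun q : ℝ × ℝ => q.1 * (G (circleMap 0 q.1 q.2)).re) S := by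
    apply ContinuousOn.mul continuousOn_fst
    apply Complex.continuous_re.comp_continuousOn
    apply hG.continuousOn.comp
    · apply Continuous.continuousOn
      unfold circleMap
      fun_prop
    · intro q hq
      rw [mem_ball_zero_iff, hmem q hq.1.1]
      exact hq.1.2
  have hae : AEMeasurable (fun q : ℝ × ℝ => ENNReal.ofReal (q.1 * (G (circleMap 0 q.1 q.2)).re))
      (((volume : Measure ℝ).prod (volume : Measure ℝ)).restrict S) :=
    (hcont.aemeasurable hSm).ennreal_ofReal
  rw [Measure.volume_eq_prod, hS, setLIntegral_prod _ hae]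
  have h2 : ∀ r ∈ Ioo (0 : ℝ) R, ∫⁻ θ in Ioo (-Real.pi) Real.pi,
      ENNReal.ofReal (r * (G (circleMap 0 r θ)).re) = ENNReal.ofReal (2 * Real.pi * r * (G 0).re) := by
    intro r hr
    have hb : ∀ θ : ℝ, circleMap 0 r θ ∈ ball (0 : ℂ) R := by
      intro θ
      rw [mem_ball_zero_iff, norm_circleMap_zero, abs_of_pos hr.1]
      exact hr.2
    have hc0 : Continuous (fun θ : ℝ => G (circleMap 0 r θ)) :=
      hG.continuousOn.comp_continuous (continuous_circleMap 0 r) hb
    have hc : Continuous (fun θ : ℝ => r * (G (circleMap 0 r θ)).re) :=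
      continuous_const.mul (Complex.continuous_re.comp hc0)
    rw [restrict_Ioo_eq_restrict_Ioc, ← ofReal_integral_eq_lintegral_ofReal]
    · rw [← intervalIntegral.integral_of_le (by linarith), intervalIntegral.integral_const_mul]
      have h3 := integral_exp_tc' hG hr.1 hr.2 0
      simp only [CharP.cast_eq_zero, zero_mul, neg_zero, Complex.exp_zero, one_mul, pow_zero,
        mul_one, tc_zero] at h3
      have h4 : ∫ θ in (-Real.pi)..Real.pi, (G (circleMap 0 r θ)).re =
          (∫ θ in (-Real.pi)..Real.pi, G (circleMap 0 r θ)).re := by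
        have := Complex.reCLM.intervalIntegral_comp_comm (μ := volume)
          (hc0.intervalIntegrable (-Real.pi) Real.pi)
        simpa using this
      rw [h4, h3]
      congr 1
      rw [show (2 * (Real.pi : ℂ)) * G 0 = ((2 * Real.pi : ℝ) : ℂ) * G 0 by push_cast; ring,
        Complex.re_ofReal_mul]
      ring
    · exact (hc.intervalIntegrable _ _).1
    · refine Filter.Eventually.of_forall fun θ => ?_
      exact mul_nonneg hr.1.le (hpos _ (hb θ))
  rw [setLIntegral_congr_fun measurableSet_Ioo h2]
  rw [restrict_Ioo_eq_restrict_Ioc, ← ofReal_integral_eq_lintegral_ofReal]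
  · apply ENNReal.ofReal_le_ofReal
    rw [← intervalIntegral.integral_of_le hR.le]
    have h5 : ∀ r : ℝ, 2 * Real.pi * r * (G 0).re = (2 * Real.pi * (G 0).re) * r := by intro r; ring
    simp only [h5]
    rw [intervalIntegral.integral_const_mul, integral_id]
    apply le_of_eq
    ring
  · exact (by fun_prop : Continuous fun r : ℝ => 2 * Real.pi * r * (G 0).re).integrableOn_Ioc
  · rw [Filter.EventuallyLE, ae_restrict_iff' measurableSet_Ioc]
    refine Filter.Eventually.of_forall fun r hr => ?_
    have h0 := hpos 0 (mem_ball_self hR)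
    have hr0 : 0 < r := hr.1
    simp only [Pi.zero_apply]
    positivity

/-- The Ahlfors-Beurling inequality. -/
theorem ahlfors_beurling {E : Set ℂ} (hE : MeasurableSet E) (hfin : volume E ≠ ⊤) (w : ℂ) :
    ‖∫ z in E, (z - w)⁻¹‖ ≤ √(Real.pi * (volume E).toReal) := by
  have hpi := Real.pi_pos
  by_cases hint : IntegrableOn (fun z : ℂ => (z - w)⁻¹) E
  swap
  · rw [integral_undef hint, norm_zero]; positivity
  set I : ℂ := ∫ z in E, (z - w)⁻¹ with hI
  by_cases hI0 : I = 0
  · rw [hI0, norm_zero]; positivity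
  have hIn : 0 < ‖I‖ := norm_pos_iff.mpr hI0
  have hIC : (‖I‖ : ℂ) ≠ 0 := by exact_mod_cast hIn.ne'
  set A : ℝ := (volume E).toReal with hA
  have hA0 : 0 < A := by
    rw [hA, ENNReal.toReal_pos_iff]
    refine ⟨?_, lt_top_iff_ne_top.mpr hfin⟩
    rw [pos_iff_ne_zero]
    intro h
    apply hI0
    rw [hI, Measure.restrict_eq_zero.mpr h]
    simp
  set R : ℝ := √(A / Real.pi) with hR
  have hR0 : 0 < R := Real.sqrt_pos.mpr (by positivity)
  have hRA : Real.pi * R ^ 2 = A := by
    rw [hR, Real.sq_sqrt (by positivity)]; field_simp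
  set v : ℂ := (starRingEnd ℂ) I / ‖I‖ with hv
  have hvn : ‖v‖ = 1 := by
    rw [hv, norm_div, RCLike.norm_conj, Complex.norm_real, norm_norm, div_self hIn.ne']
  have hv0 : v ≠ 0 := by rw [← norm_pos_iff, hvn]; exact one_pos
  have hvI : v * I = ‖I‖ := by
    have h1 : (starRingEnd ℂ) I * I = (‖I‖ : ℂ) ^ 2 := by
      rw [← Complex.normSq_eq_conj_mul_self, ← Complex.sq_norm]; push_cast; rfl
    rw [hv, div_mul_eq_mul_div, h1, pow_two, mul_div_cancel_right₀ _ hIC]
  set φ : ℂ → ℝ := fun z => (v * (z - w)⁻¹).re with hφ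
  have hφint : IntegrableOn φ E := (hint.const_mul v).re
  have hval : ‖I‖ = ∫ z in E, φ z := by
    have h1 : ∫ z in E, φ z = (∫ z in E, v * (z - w)⁻¹).re := by
      exact Complex.reCLM.integral_comp_comm (hint.const_mul v)
    rw [h1, integral_const_mul, ← hI, hvI, Complex.ofReal_re]
  -- the extremal disc
  set a : ℂ := w + R * v with ha
  set D : Set ℂ := ball a R with hD
  have hDm : MeasurableSet D := isOpen_ball.measurableSet
  set τ : ℝ := 1 / (2 * R) with hτ
  have hτ0 : 0 < τ := by rw [hτ]; positivity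
  have hmemD : ∀ z, z ∈ D ↔ τ < φ z := by
    intro z
    by_cases hz : z = w
    · subst hz
      constructor
      · intro h
        rw [hD, mem_ball_iff_norm, ha, sub_add_cancel_left, norm_neg, norm_mul, hvn, mul_one,
          Complex.norm_real, Real.norm_eq_abs, abs_of_pos hR0] at h
        exact absurd h (lt_irrefl _)
      · intro h
        simp only [hφ, sub_self, inv_zero, mul_zero, Complex.zero_re] at h
        linarith
    · have hzw : z - w ≠ 0 := sub_ne_zero.mpr hz
      set ζ : ℂ := (z - w) * v⁻¹ with hζ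
      have hζ0 : ζ ≠ 0 := mul_ne_zero hzw (inv_ne_zero hv0)
      have hφζ : φ z = ζ.re / Complex.normSq ζ := by
        simp only [hφ]
        have : v * (z - w)⁻¹ = ζ⁻¹ := by rw [hζ, mul_inv, inv_inv, mul_comm]
        rw [this, Complex.inv_re]
      have hns : 0 < Complex.normSq ζ := Complex.normSq_pos.mpr hζ0
      have hdist : ‖z - a‖ = ‖ζ - R‖ := by
        have : z - a = (ζ - R) * v := by
          rw [hζ, ha, sub_mul, mul_assoc, inv_mul_cancel₀ hv0]; ring
        rw [this, norm_mul, hvn, mul_one]
      rw [hD, mem_ball_iff_norm, hdist, hφζ, hτ, div_lt_div_iff₀ (by positivity) hns, one_mul]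
      have hsq : ‖ζ - R‖ ^ 2 = Complex.normSq ζ - 2 * R * ζ.re + R ^ 2 := by
        rw [Complex.sq_norm, Complex.normSq_apply, Complex.normSq_apply]
        simp
        ring
      constructor
      · intro h
        have : ‖ζ - R‖ ^ 2 < R ^ 2 := pow_lt_pow_left₀ h (norm_nonneg _) two_ne_zero
        linarith
      · intro h
        apply lt_of_pow_lt_pow_left₀ 2 hR0.le
        linarith
  -- integral over the disc
  have hlint : ∫⁻ z in D, ENNReal.ofReal (φ z) ≤ ENNReal.ofReal (Real.pi * R) := by
    have h1 : ∫⁻ z in D, ENNReal.ofReal (φ z) =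
        ∫⁻ z in ball (0 : ℂ) R, ENNReal.ofReal (φ (a + z)) := by
      have hmp : MeasurePreserving (fun z : ℂ => a + z) := measurePreserving_add_left volume a
      have := hmp.setLIntegral_comp_preimage_emb (MeasurableEquiv.addLeft a).measurableEmbedding
        (fun z => ENNReal.ofReal (φ z)) D
      rw [← this]
      congr 2
      ext z
      simp [hD]
    rw [h1]
    have h2 := mean_value (G := fun z => v * (a + z - w)⁻¹) hR0 ?_ ?_
    · refine h2.trans (le_of_eq ?_)
      congr 1
      simp only [add_zero]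
      have : a - w = R * v := by rw [ha]; ring
      have hRC : (R : ℂ) ≠ 0 := by exact_mod_cast hR0.ne'
      rw [this, mul_inv]
      rw [show v * ((R : ℂ)⁻¹ * v⁻¹) = ((R⁻¹ : ℝ) : ℂ) by push_cast; field_simp]
      rw [Complex.ofReal_re]
      field_simp
    · intro z hz
      apply DifferentiableAt.differentiableWithinAt
      apply DifferentiableAt.const_mul
      apply DifferentiableAt.inv
      · fun_prop
      · intro h
        have hzR : z = -(R * v) := by
          have : a + z - w = 0 := h
          rw [ha] at this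
          linear_combination this
        rw [mem_ball_zero_iff, hzR, norm_neg, norm_mul, hvn, mul_one, Complex.norm_real,
          Real.norm_eq_abs, abs_of_pos hR0] at hz
        exact lt_irrefl _ hz
    · intro z hz
      have h3 : a + z ∈ D := by
        rw [hD, mem_ball_iff_norm, add_sub_cancel_left]
        exact mem_ball_zero_iff.mp hz
      exact hτ0.le.trans ((hmemD _).mp h3).le
  have hφm : Measurable φ := by
    simp only [hφ]
    fun_prop
  have hDint : IntegrableOn φ D := by
    refine ⟨hφm.aestronglyMeasurable, ?_⟩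
    rw [hasFiniteIntegral_iff_ofReal]
    · exact hlint.trans_lt ENNReal.ofReal_lt_top
    · rw [Filter.EventuallyLE, ae_restrict_iff' hDm]
      refine Filter.Eventually.of_forall fun z hz => ?_
      exact hτ0.le.trans ((hmemD z).mp hz).le
  have hDval : ∫ z in D, φ z ≤ Real.pi * R := by
    rw [integral_eq_lintegral_of_nonneg_ae]
    · exact ENNReal.toReal_le_of_le_ofReal (by positivity) hlint
    · rw [Filter.EventuallyLE, ae_restrict_iff' hDm]
      refine Filter.Eventually.of_forall fun z hz => ?_
      exact hτ0.le.trans ((hmemD z).mp hz).le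
    · exact hφm.aestronglyMeasurable
  have hDvol : (volume D).toReal = A := by
    rw [hD, Complex.volume_ball, ENNReal.toReal_mul, ENNReal.toReal_pow,
      ENNReal.toReal_ofReal hR0.le]
    rw [← hRA]
    simp
    ring
  have hDfin : volume D ≠ ⊤ := measure_ball_lt_top.ne
  -- comparison
  have hcE : IntegrableOn (fun _ : ℂ => τ) E := integrableOn_const hfin
  have hcD : IntegrableOn (fun _ : ℂ => τ) D := integrableOn_const hDfin
  have h1 : ∫ z in E, (φ z - τ) ≤ ∫ z in D, (φ z - τ) := by
    have hsplit := integral_inter_add_sdiff (μ := volume) (f := fun z => φ z - τ) hDm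
      (hφint.sub hcE)
    rw [← hsplit]
    have h2 : ∫ z in E \ D, (φ z - τ) ≤ 0 := by
      apply setIntegral_nonpos (hE.diff hDm)
      intro z hz
      have : ¬ τ < φ z := fun h => hz.2 ((hmemD z).mpr h)
      linarith
    have h3 : ∫ z in E ∩ D, (φ z - τ) ≤ ∫ z in D, (φ z - τ) := by
      apply setIntegral_mono_set (hDint.sub hcD)
      · rw [Filter.EventuallyLE, ae_restrict_iff' hDm]
        refine Filter.Eventually.of_forall fun z hz => ?_
        have := (hmemD z).mp hz
        change 0 ≤ φ z - τ
        linarith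
      · exact inter_subset_right.eventuallyLE
    linarith
  rw [integral_sub hφint hcE, integral_sub hDint hcD, setIntegral_const, setIntegral_const] at h1
  have h2 : (volume.real E) = A := rfl
  have h3 : (volume.real D) = A := hDvol
  rw [h2, h3] at h1
  have h4 : ‖I‖ ≤ Real.pi * R := by rw [hval]; linarith
  refine h4.trans (le_of_eq ?_)
  rw [← hRA, show Real.pi * (Real.pi * R ^ 2) = (Real.pi * R) ^ 2 by ring,
    Real.sqrt_sq (by positivity)]

end Pool.Agent.H713R2.PD
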