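import Mathlib
import Pool.Agent.H713R2.PD.AB

set_option autoImplicit false

open Complex Topology Filter Metric MeasureTheory Set Polynomial Bornology

namespace Pool.Agent.H713R2.PD

/-- Maximum principle on an unbounded domain, for bounded functions. -/
theorem max_unbounded {U : Set ℂ} {G : ℂ → ℂ} {M K δ : ℝ} {z₀ : ℂ} (hM : 0 < M) (hδ : 0 < δ)
    (hdist : ∀ w ∈ closure U, δ ≤ ‖w - z₀‖) (hd : DiffContOnCl ℂ G U)
    (hK : ∀ w ∈ closure U, ‖G w‖ ≤ K) (hb : ∀ w ∈ frontier U, ‖G w‖ ≤ M) {w : ℂ} (hw : w ∈ U) :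
    ‖G w‖ ≤ M := by
  have hK0 : 0 ≤ K := (norm_nonneg _).trans (hK w (subset_closure hw))
  have hw0 : 0 < ‖w - z₀‖ := hδ.trans_le (hdist w (subset_closure hw))
  have key : ∀ k : ℕ, (‖G w‖ / M) ^ k ≤ ‖w - z₀‖ / δ := by
    intro k
    set L : ℝ := max (‖w - z₀‖ + 1) (K ^ k * δ / M ^ k) with hL
    have hL1 : ‖w - z₀‖ < L := lt_of_lt_of_le (by linarith) (le_max_left _ _)
    have hL2 : K ^ k * δ / M ^ k ≤ L := le_max_right _ _
    have hL0 : 0 < L := hw0.trans hL1
    set V : Set ℂ := U ∩ ball z₀ L with hV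
    have hVb : IsBounded V := isBounded_ball.subset inter_subset_right
    set h : ℂ → ℂ := fun ζ => (ζ - z₀)⁻¹ • (G ζ) ^ k with hh
    have hne : ∀ ζ ∈ closure U, ζ - z₀ ≠ 0 := by
      intro ζ hζ h0
      have := hdist ζ hζ
      rw [h0, norm_zero] at this
      linarith
    have hdU : DiffContOnCl ℂ h U := by
      apply DiffContOnCl.smul
      · apply DiffContOnCl.inv
        · exact (differentiable_id.sub_const z₀).diffContOnCl
        · exact hne
      · refine ⟨hd.1.pow k, hd.2.pow k⟩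
    have hdV : DiffContOnCl ℂ h V := hdU.mono inter_subset_left
    have hfr : ∀ ζ ∈ frontier V, ‖h ζ‖ ≤ M ^ k / δ := by
      intro ζ hζ
      have h1 : ‖h ζ‖ = ‖G ζ‖ ^ k / ‖ζ - z₀‖ := by
        rw [hh]
        simp only
        rw [norm_smul, norm_inv, norm_pow, div_eq_inv_mul]
      rw [h1]
      rcases frontier_inter_subset U (ball z₀ L) hζ with ⟨h2, h3⟩ | ⟨h2, h3⟩
      · have h4 := hdist ζ (frontier_subset_closure h2)
        have h5 := hb ζ h2
        gcongr
      · have h4 := hK ζ h2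
        have h5 : ‖ζ - z₀‖ = L := by
          rw [frontier_ball z₀ hL0.ne', mem_sphere_iff_norm] at h3
          exact h3
        rw [h5, div_le_div_iff₀ hL0 hδ]
        calc ‖G ζ‖ ^ k * δ ≤ K ^ k * δ := by gcongr
          _ = (K ^ k * δ / M ^ k) * M ^ k := by field_simp
          _ ≤ L * M ^ k := by gcongr
          _ = M ^ k * L := mul_comm _ _
    have h2 := Complex.norm_le_of_forall_mem_frontier_norm_le hVb hdV hfr
      (subset_closure (show w ∈ V from ⟨hw, by rw [mem_ball_iff_norm]; exact hL1⟩))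
    have h1 : ‖h w‖ = ‖G w‖ ^ k / ‖w - z₀‖ := by
      rw [hh]
      simp only
      rw [norm_smul, norm_inv, norm_pow, div_eq_inv_mul]
    rw [h1, div_le_div_iff₀ hw0 hδ] at h2
    rw [div_pow, div_le_div_iff₀ (by positivity) hδ]
    linarith
  by_contra hcon
  push Not at hcon
  have h1 : 1 < ‖G w‖ / M := (one_lt_div hM).mpr hcon
  have h2 := (tendsto_pow_atTop_atTop_of_one_lt h1).eventually (eventually_gt_atTop (‖w - z₀‖ / δ))
  obtain ⟨k, hk⟩ := h2.exists
  exact absurd (key k) (not_le.mpr hk)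

/-- The Cauchy transform. -/
noncomputable def CT (E : Set ℂ) (w : ℂ) : ℂ := ∫ z in E, (z - w)⁻¹

theorem CT_diff {E : Set ℂ} (hE : IsCompact E) {w₀ : ℂ} (hw : w₀ ∉ E) :
    DifferentiableAt ℂ (CT E) w₀ := by
  have hopen : IsOpen Eᶜ := hE.isClosed.isOpen_compl
  obtain ⟨δ, hδ, hsub⟩ := Metric.isOpen_iff.mp hopen w₀ hw
  have hdist : ∀ z ∈ E, ∀ w ∈ ball w₀ (δ / 2), δ / 2 ≤ ‖z - w‖ := by
    intro z hz w hww
    have h1 : ¬ z ∈ ball w₀ δ := fun h => hsub h hz
    rw [mem_ball_iff_norm, not_lt] at h1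
    rw [mem_ball_iff_norm] at hww
    have h2 : ‖z - w₀‖ ≤ ‖z - w‖ + ‖w - w₀‖ := norm_sub_le_norm_sub_add_norm_sub z w w₀
    linarith
  have hδ2 : 0 < δ / 2 := by linarith
  have hfin : volume E ≠ ⊤ := hE.measure_lt_top.ne
  have hEm : MeasurableSet E := hE.isClosed.measurableSet
  have h := hasDerivAt_integral_of_dominated_loc_of_deriv_le (μ := volume.restrict E)
    (F := fun w z => (z - w)⁻¹) (F' := fun w z => ((z - w) ^ 2)⁻¹) (x₀ := w₀)
    (bound := fun _ => ((δ / 2) ^ 2)⁻¹) (ball_mem_nhds w₀ hδ2) ?_ ?_ ?_ ?_ ?_ ?_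
  · exact h.2.differentiableAt
  · refine Filter.Eventually.of_forall fun w => ?_
    exact (by fun_prop : Measurable fun z : ℂ => (z - w)⁻¹).aestronglyMeasurable
  · apply Measure.integrableOn_of_bounded (M := (δ / 2)⁻¹) hfin
    · exact (by fun_prop : Measurable fun z : ℂ => (z - w₀)⁻¹).aestronglyMeasurable
    · rw [ae_restrict_iff' hEm]
      refine Filter.Eventually.of_forall fun z hz => ?_
      rw [norm_inv]
      exact inv_anti₀ hδ2 (hdist z hz w₀ (mem_ball_self hδ2))
  · exact (by fun_prop : Measurable fun z : ℂ => ((z - w₀) ^ 2)⁻¹).aestronglyMeasurable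
  · rw [ae_restrict_iff' hEm]
    refine Filter.Eventually.of_forall fun z hz w hww => ?_
    rw [norm_inv, norm_pow]
    apply inv_anti₀ (by positivity)
    exact pow_le_pow_left₀ hδ2.le (hdist z hz w hww) 2
  · exact integrableOn_const hfin
  · rw [ae_restrict_iff' hEm]
    refine Filter.Eventually.of_forall fun z hz w hww => ?_
    have hne : z - w ≠ 0 := by
      have := hdist z hz w hww
      rw [← norm_pos_iff]
      linarith
    have h1 := ((hasDerivAt_id w).const_sub z).inv hne
    refine h1.congr_deriv ?_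
    simp

theorem CT_lim {E : Set ℂ} (hE : IsCompact E) :
    Tendsto (fun w => w * CT E w) (cobounded ℂ) (𝓝 (-((volume E).toReal : ℂ))) := by
  obtain ⟨S, hS0, hS⟩ := hE.isBounded.exists_pos_norm_le
  have hfin : volume E ≠ ⊤ := hE.measure_lt_top.ne
  have hEm : MeasurableSet E := hE.isClosed.measurableSet
  set A : ℝ := (volume E).toReal with hA
  have hAr : volume.real E = A := rfl
  rw [tendsto_iff_norm_sub_tendsto_zero]
  have hb : ∀ w : ℂ, S < ‖w‖ → ‖w * CT E w - -(A : ℂ)‖ ≤ A * (S / (‖w‖ - S)) := by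
    intro w hw
    have hpos : 0 < ‖w‖ - S := by linarith
    have hlow : ∀ z ∈ E, ‖w‖ - S ≤ ‖z - w‖ := by
      intro z hz
      have h1 := hS z hz
      have h2 : ‖w‖ - ‖z‖ ≤ ‖w - z‖ := norm_sub_norm_le w z
      rw [norm_sub_rev] at h2
      linarith
    have h1 : w * CT E w - -(A : ℂ) = ∫ z in E, z * (z - w)⁻¹ := by
      rw [CT, ← integral_const_mul]
      have h2 : (A : ℂ) = ∫ z in E, (1 : ℂ) := by
        rw [setIntegral_const, hAr]; simp
      rw [h2, sub_neg_eq_add, ← integral_add]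
      · apply setIntegral_congr_fun hEm
        intro z hz
        have hne : z - w ≠ 0 := by
          have := hlow z hz
          rw [← norm_pos_iff]
          linarith
        simp only
        field_simp
        ring
      · apply Integrable.const_mul
        apply Measure.integrableOn_of_bounded (M := (‖w‖ - S)⁻¹) hfin
        · exact (by fun_prop : Measurable fun z : ℂ => (z - w)⁻¹).aestronglyMeasurable
        · rw [ae_restrict_iff' hEm]
          refine Filter.Eventually.of_forall fun z hz => ?_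
          rw [norm_inv]
          exact inv_anti₀ hpos (hlow z hz)
      · exact integrableOn_const hfin
    rw [h1]
    have h3 := norm_setIntegral_le_of_norm_le_const (μ := volume) (s := E)
      (f := fun z => z * (z - w)⁻¹) (C := S / (‖w‖ - S)) (hE.measure_lt_top) ?_
    · rw [hAr] at h3
      rw [mul_comm]
      exact h3
    · intro z hz
      rw [norm_mul, norm_inv, ← div_eq_mul_inv]
      have := hS z hz
      have h5 := hlow z hz
      gcongr
  apply squeeze_zero' (g := fun w => A * (S / (‖w‖ - S)))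
  · exact Filter.Eventually.of_forall fun w => norm_nonneg _
  · filter_upwards [tendsto_norm_cobounded_atTop.eventually (eventually_gt_atTop S)] with w hw
      using hb w hw
  · have h1 : Tendsto (fun w : ℂ => ‖w‖ - S) (cobounded ℂ) atTop :=
      tendsto_atTop_add_const_right _ _ tendsto_norm_cobounded_atTop
    have h2 : Tendsto (fun w : ℂ => S / (‖w‖ - S)) (cobounded ℂ) (𝓝 0) :=
      h1.const_div_atTop S
    simpa using h2.const_mul A

theorem poly_lim (p : ℂ[X]) :
    Tendsto (fun w => p.eval w / w ^ p.natDegree) (cobounded ℂ) (𝓝 p.leadingCoeff) := by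
  have h := p.isEquivalent_cobounded_leading_monomial (R := ℂ)
  have h1 := h.isBigO
  obtain ⟨φ, hφ, he⟩ := h.exists_eq_mul
  have h2 : (fun w => p.eval w / w ^ p.natDegree) =ᶠ[cobounded ℂ] fun w => φ w * p.leadingCoeff := by
    have hne : ∀ᶠ w : ℂ in cobounded ℂ, w ≠ 0 := by
      filter_upwards [tendsto_norm_cobounded_atTop.eventually (eventually_gt_atTop 0)] with w hw
      exact norm_pos_iff.mp hw
    filter_upwards [he, hne] with w hw hw0
    rw [hw]
    simp only [Pi.mul_apply]
    have : w ^ p.natDegree ≠ 0 := pow_ne_zero _ hw0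
    field_simp
  rw [tendsto_congr' h2]
  simpa using hφ.mul_const p.leadingCoeff

theorem isCompact_sublevel {p : ℂ[X]} (hp : 1 ≤ p.natDegree) (c : ℝ) :
    IsCompact {z : ℂ | ‖p.eval z‖ ≤ c} := by
  have h := p.isProperMap_eval (natDegree_pos_iff_degree_pos.mp hp)
  have : {z : ℂ | ‖p.eval z‖ ≤ c} = (fun z => p.eval z) ⁻¹' closedBall 0 c := by
    ext z; simp
  rw [this]
  exact h.isCompact_preimage (isCompact_closedBall _ _)

/-- Polya's inequality for the area of a lemniscate domain. -/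
theorem polya {p : ℂ[X]} (hp : 1 ≤ p.natDegree) {c : ℝ} (hc : 0 ≤ c) :
    (volume {z : ℂ | ‖p.eval z‖ ≤ c}).toReal ^ p.natDegree * ‖p.leadingCoeff‖ ^ 2 ≤
      Real.pi ^ p.natDegree * c ^ 2 := by
  have hpi := Real.pi_pos
  set N := p.natDegree with hN
  set b := p.leadingCoeff with hb
  set E : Set ℂ := {z : ℂ | ‖p.eval z‖ ≤ c} with hE
  have hEc : IsCompact E := isCompact_sublevel hp c
  have hEm : MeasurableSet E := hEc.isClosed.measurableSet
  have hEfin : volume E ≠ ⊤ := hEc.measure_lt_top.ne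
  set A : ℝ := (volume E).toReal with hA
  have hA0 : 0 ≤ A := ENNReal.toReal_nonneg
  rcases hA0.eq_or_lt with hA0 | hApos
  · rw [← hA0, zero_pow (by omega), zero_mul]; positivity
  -- for every larger level
  have key : ∀ c' : ℝ, c < c' → A ^ N * ‖b‖ ≤ √(Real.pi * A) ^ N * c' := by
    intro c' hcc'
    have hc' : 0 < c' := hc.trans_lt hcc'
    set M : ℝ := √(Real.pi * A) ^ N * c' with hM
    have hM0 : 0 < M := by rw [hM]; positivity
    set U : Set ℂ := {w | c' < ‖p.eval w‖} with hU
    have hpc : Continuous (fun w : ℂ => ‖p.eval w‖) := p.continuous.norm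
    have hclU : closure U ⊆ {w | c' ≤ ‖p.eval w‖} := closure_lt_subset_le continuous_const hpc
    have hfrU : frontier U ⊆ {w | c' = ‖p.eval w‖} := frontier_lt_subset_eq continuous_const hpc
    have hnotE : ∀ w ∈ closure U, w ∉ E := by
      intro w hw hwE
      have h1 : c' ≤ ‖p.eval w‖ := hclU hw
      have h2 : ‖p.eval w‖ ≤ c := hwE
      linarith
    set G : ℂ → ℂ := fun w => CT E w ^ N * p.eval w with hG
    have hGd : ∀ w ∈ closure U, DifferentiableAt ℂ G w := fun w hw =>
      ((CT_diff hEc (hnotE w hw)).pow N).mul p.differentiable.differentiableAt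
    have hGdc : DiffContOnCl ℂ G U := by
      apply DifferentiableOn.diffContOnCl
      intro w hw
      exact (hGd w hw).differentiableWithinAt
    -- a root
    obtain ⟨z₀, hz₀⟩ := IsAlgClosed.exists_root p (by
      intro h
      have h1 : p.natDegree = 0 := natDegree_eq_of_degree_eq_some h
      omega)
    have hz₀' : p.eval z₀ = 0 := hz₀
    obtain ⟨δ, hδ, hsub⟩ := Metric.isOpen_iff.mp (isOpen_lt hpc continuous_const :
      IsOpen {w : ℂ | ‖p.eval w‖ < c'}) z₀ (by
        change ‖p.eval z₀‖ < c'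
        rw [hz₀', norm_zero]; exact hc')
    have hdist : ∀ w ∈ closure U, δ ≤ ‖w - z₀‖ := by
      intro w hw
      by_contra hcon
      push Not at hcon
      have h1 : ‖p.eval w‖ < c' := hsub (by rw [mem_ball_iff_norm]; exact hcon)
      have h2 : c' ≤ ‖p.eval w‖ := hclU hw
      linarith
    -- the limit at infinity
    have hlim : Tendsto G (cobounded ℂ) (𝓝 ((-(A : ℂ)) ^ N * b)) := by
      have h1 := ((CT_lim hEc).pow N).mul (poly_lim p)
      refine h1.congr' ?_
      filter_upwards [tendsto_norm_cobounded_atTop.eventually (eventually_gt_atTop 0)] with w hw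
      have hw0 : w ≠ 0 := norm_pos_iff.mp hw
      have : w ^ N ≠ 0 := pow_ne_zero _ hw0
      rw [hG, mul_pow, ← hN]
      simp only
      field_simp
    -- boundedness
    have hbdd : ∃ K, ∀ w ∈ closure U, ‖G w‖ ≤ K := by
      have h1 : ∀ᶠ w in cobounded ℂ, ‖G w‖ < ‖(-(A : ℂ)) ^ N * b‖ + 1 :=
        hlim.norm.eventually (gt_mem_nhds (by linarith))
      obtain ⟨L, hL⟩ : ∃ L, ∀ w : ℂ, L < ‖w‖ → ‖G w‖ < ‖(-(A : ℂ)) ^ N * b‖ + 1 := by
        rw [← comap_norm_atTop, eventually_comap, eventually_atTop] at h1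
        obtain ⟨L, hL⟩ := h1
        exact ⟨L, fun w hw => hL ‖w‖ hw.le w rfl⟩
      have hcp : IsCompact (closure U ∩ closedBall 0 L) :=
        (isCompact_closedBall (0 : ℂ) L).inter_left isClosed_closure
      obtain ⟨K1, hK1⟩ := hcp.exists_bound_of_continuousOn (f := G)
        (fun w hw => (hGd w hw.1).continuousAt.continuousWithinAt)
      refine ⟨max K1 (‖(-(A : ℂ)) ^ N * b‖ + 1), fun w hw => ?_⟩
      by_cases hwL : L < ‖w‖
      · exact (hL w hwL).le.trans (le_max_right _ _)
      · exact (hK1 w ⟨hw, by rw [mem_closedBall_zero_iff]; linarith⟩).trans (le_max_left _ _)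
    obtain ⟨K, hK⟩ := hbdd
    have hfrb : ∀ w ∈ frontier U, ‖G w‖ ≤ M := by
      intro w hw
      have h1 : c' = ‖p.eval w‖ := hfrU hw
      rw [hG]
      simp only
      rw [norm_mul, norm_pow, ← h1, hM]
      have h2 : ‖CT E w‖ ≤ √(Real.pi * A) := ahlfors_beurling hEm hEfin w
      gcongr
    have hmax : ∀ w ∈ U, ‖G w‖ ≤ M := fun w hw =>
      max_unbounded hM0 hδ hdist hGdc hK hfrb hw
    have hUev : ∀ᶠ w in cobounded ℂ, w ∈ U := by
      have h1 := p.tendsto_norm_atTop (natDegree_pos_iff_degree_pos.mp hp)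
        tendsto_norm_cobounded_atTop
      exact h1.eventually (eventually_gt_atTop c')
    have h1 := le_of_tendsto hlim.norm (hUev.mono fun w hw => hmax w hw)
    rw [norm_mul, norm_pow, norm_neg, Complex.norm_real, Real.norm_eq_abs, abs_of_pos hApos] at h1
    exact h1
  have key2 : A ^ N * ‖b‖ ≤ √(Real.pi * A) ^ N * c := by
    have hcont : Continuous (fun x : ℝ => √(Real.pi * A) ^ N * x) := by fun_prop
    have h1 := (hcont.tendsto c).mono_left (nhdsWithin_le_nhds (s := Ioi c))
    exact ge_of_tendsto h1 (by filter_upwards [self_mem_nhdsWithin] with x hx using key x hx)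
  have h1 : (A ^ N * ‖b‖) ^ 2 ≤ (√(Real.pi * A) ^ N * c) ^ 2 :=
    pow_le_pow_left₀ (by positivity) key2 2
  have h2 : (√(Real.pi * A) ^ N * c) ^ 2 = A ^ N * (Real.pi ^ N * c ^ 2) := by
    rw [mul_pow, ← pow_mul, mul_comm N 2, pow_mul, Real.sq_sqrt (by positivity), mul_pow]
    ring
  have h3 : (A ^ N * ‖b‖) ^ 2 = A ^ N * (A ^ N * ‖b‖ ^ 2) := by ring
  rw [h2, h3] at h1
  exact le_of_mul_le_mul_left h1 (by positivity)

end Pool.Agent.H713R2.PD
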