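import Mathlib
import Pool.Agent.H713R2.PD.Polya

set_option autoImplicit false

open Complex Topology Filter Metric MeasureTheory Set Polynomial Bornology

namespace Pool.Agent.H713R2.PD

/-- The orbit of `c` under `T + t`, as polynomials in `t`. -/
noncomputable def pn (T : ℂ[X]) (c : ℂ) : ℕ → ℂ[X]
  | 0 => C c
  | n + 1 => T.comp (pn T c n) + X

theorem eval_pn (T : ℂ[X]) (c t : ℂ) (n : ℕ) :
    (pn T c n).eval t = (fun z => (T + C t).eval z)^[n] c := by
  induction n with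
  | zero => simp [pn]
  | succ n ih =>
    rw [Function.iterate_succ_apply', ← ih, pn]
    simp

/-- `1 + d + ... + d ^ (n - 1)`. -/
def ee (d : ℕ) (n : ℕ) : ℕ := ∑ k ∈ Finset.range n, d ^ k

theorem ee_succ (d n : ℕ) : ee d (n + 1) = 1 + d * ee d n := by
  unfold ee
  rw [Finset.sum_range_succ', Finset.mul_sum, pow_zero, add_comm]
  congr 1
  apply Finset.sum_congr rfl
  intro k _
  ring

theorem pn_spec {T : ℂ[X]} (hT : 2 ≤ T.natDegree) (c : ℂ) (n : ℕ) :
    (pn T c (n + 1)).natDegree = T.natDegree ^ n ∧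
      (pn T c (n + 1)).leadingCoeff = T.leadingCoeff ^ (ee T.natDegree n) := by
  induction n with
  | zero =>
    have h1 : pn T c 1 = X + C (T.eval c) := by
      rw [pn, pn, comp_C, add_comm]
    rw [h1]
    constructor
    · rw [natDegree_X_add_C, pow_zero]
    · rw [leadingCoeff_X_add_C, ee, Finset.range_zero, Finset.sum_empty, pow_zero]
  | succ n ih =>
    obtain ⟨ih1, ih2⟩ := ih
    have h0 : 0 < T.natDegree ^ n := pow_pos (by omega) n
    have h1 : (T.comp (pn T c (n + 1))).natDegree = T.natDegree ^ (n + 1) := by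
      rw [natDegree_comp, ih1]; ring
    have h2 : (X : ℂ[X]).natDegree < (T.comp (pn T c (n + 1))).natDegree := by
      rw [h1, natDegree_X, pow_succ]
      nlinarith
    have h3 : pn T c (n + 1 + 1) = T.comp (pn T c (n + 1)) + X := rfl
    rw [h3]
    constructor
    · rw [natDegree_add_eq_left_of_natDegree_lt h2, h1]
    · rw [leadingCoeff_add_of_degree_lt' (degree_lt_degree h2),
        leadingCoeff_comp (by rw [ih1]; omega), ih2, ee_succ]
      ring

theorem exists_radius {T : ℂ[X]} (hT : 2 ≤ T.natDegree) (L : ℝ) :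
    ∃ ρ : ℝ, 1 ≤ ρ ∧ ∀ z t : ℂ, ρ < ‖z‖ → ‖t‖ ≤ L → 2 * ‖z‖ ≤ ‖(T + C t).eval z‖ := by
  have hdeg : (X : ℂ[X]).degree < T.degree := by
    apply degree_lt_degree
    rw [natDegree_X]; omega
  have h1 := (isLittleO_cobounded_of_degree_lt (R := ℂ) hdeg).bound (show (0 : ℝ) < 1 / 4 by norm_num)
  rw [← comap_norm_atTop, eventually_comap, eventually_atTop] at h1
  obtain ⟨ρ₀, hρ₀⟩ := h1
  refine ⟨max (max ρ₀ 1) (|L|), le_max_of_le_left (le_max_right _ _), fun z t hz ht => ?_⟩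
  have hz1 : ρ₀ < ‖z‖ := ((le_max_left _ _).trans (le_max_left _ _)).trans_lt hz
  have hz2 : |L| < ‖z‖ := (le_max_right _ _).trans_lt hz
  have h2 := hρ₀ ‖z‖ hz1.le z rfl
  rw [eval_X] at h2
  have h3 : ‖t‖ ≤ ‖z‖ := (ht.trans (le_abs_self L)).trans hz2.le
  have h4 : ‖T.eval z‖ - ‖t‖ ≤ ‖(T + C t).eval z‖ := by
    rw [eval_add, eval_C]
    have := norm_sub_le (T.eval z + t) t
    rw [add_sub_cancel_right] at this
    linarith
  have h5 := norm_nonneg z
  linarith

theorem escape {T : ℂ[X]} {ρ : ℝ} {t : ℂ} (hρ : 1 ≤ ρ)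
    (h : ∀ z : ℂ, ρ < ‖z‖ → 2 * ‖z‖ ≤ ‖(T + C t).eval z‖) {c : ℂ} {k : ℕ}
    (hk : ρ < ‖(fun z => (T + C t).eval z)^[k] c‖) :
    Tendsto (fun k => ‖(fun z => (T + C t).eval z)^[k] c‖) atTop atTop := by
  have hgrow : ∀ j, (2 : ℝ) ^ j * ρ < ‖(fun z => (T + C t).eval z)^[k + j] c‖ := by
    intro j
    induction j with
    | zero => simpa using hk
    | succ j ih =>
      have h1 : (1 : ℝ) ≤ 2 ^ j := one_le_pow₀ (by norm_num)
      have h2 := h ((fun z => (T + C t).eval z)^[k + j] c) (by nlinarith)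
      rw [← add_assoc, Function.iterate_succ_apply', pow_succ]
      linarith
  rw [← tendsto_add_atTop_iff_nat k]
  apply tendsto_atTop_mono (f := fun j : ℕ => (2 : ℝ) ^ j)
  · intro j
    have := hgrow j
    rw [add_comm k j] at this
    have h2 : (0 : ℝ) < 2 ^ j := by positivity
    nlinarith
  · exact tendsto_pow_atTop_atTop_of_one_lt (by norm_num)

/-- The parameters for which `c` does not escape. -/
def EC (T : ℂ[X]) (c : ℂ) : Set ℂ :=
  {t | ¬ Tendsto (fun k => ‖(fun z => (T + C t).eval z)^[k] c‖) atTop atTop}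

theorem ee_lim {d : ℕ} (hd : 2 ≤ d) :
    Tendsto (fun n : ℕ => (ee d n : ℝ) / (d : ℝ) ^ n) atTop (𝓝 (1 / ((d : ℝ) - 1))) := by
  have hd1 : (1 : ℝ) < d := by exact_mod_cast (by omega : 1 < d)
  have h1 : ∀ n : ℕ, (ee d n : ℝ) / (d : ℝ) ^ n = (1 - ((d : ℝ) ^ n)⁻¹) / ((d : ℝ) - 1) := by
    intro n
    have h2 : ((ee d n : ℕ) : ℝ) = ((d : ℝ) ^ n - 1) / ((d : ℝ) - 1) := by
      unfold ee
      push_cast
      exact geom_sum_eq hd1.ne' n
    have h3 : (d : ℝ) ^ n ≠ 0 := by positivity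
    have h4 : (d : ℝ) - 1 ≠ 0 := by linarith
    rw [h2]
    field_simp
  simp only [h1]
  have h2 : Tendsto (fun n : ℕ => ((d : ℝ) ^ n)⁻¹) atTop (𝓝 0) :=
    (tendsto_pow_atTop_atTop_of_one_lt hd1).inv_tendsto_atTop
  have h3 := (h2.const_sub 1).div_const ((d : ℝ) - 1)
  rw [sub_zero] at h3
  exact h3

theorem area_EC {T : ℂ[X]} (hT : 2 ≤ T.natDegree) (c : ℂ) :
    volume (EC T c) ≤ ENNReal.ofReal (Real.pi * ‖T.leadingCoeff‖ ^ (-(2 / ((T.natDegree : ℝ) - 1)))) := by
  have hpi := Real.pi_pos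
  set d := T.natDegree with hd
  set a := T.leadingCoeff with ha
  have ha0 : a ≠ 0 := by
    rw [ha, leadingCoeff_ne_zero]
    rintro rfl
    simp at hd
    omega
  have han : 0 < ‖a‖ := norm_pos_iff.mpr ha0
  have hd1 : (1 : ℝ) < d := by exact_mod_cast (by omega : 1 < d)
  -- bounded pieces
  have key : ∀ L : ℕ, volume (EC T c ∩ closedBall 0 (L : ℝ)) ≤
      ENNReal.ofReal (Real.pi * ‖a‖ ^ (-(2 / ((d : ℝ) - 1)))) := by
    intro L
    obtain ⟨ρ, hρ1, hρ⟩ := exists_radius hT (L : ℝ)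
    have hρ0 : 0 < ρ := by linarith
    set E : Set ℂ := EC T c ∩ closedBall 0 (L : ℝ) with hE
    have hsub : ∀ n, E ⊆ {t : ℂ | ‖(pn T c (n + 1)).eval t‖ ≤ ρ} := by
      rintro n t ⟨ht1, ht2⟩
      change ‖(pn T c (n + 1)).eval t‖ ≤ ρ
      by_contra hcon
      push Not at hcon
      apply ht1
      rw [eval_pn] at hcon
      exact escape hρ1 (fun z hz => hρ z t hz (by simpa using ht2)) hcon
    have hfin : volume E ≠ ⊤ := ((measure_mono inter_subset_right).trans_lt
      measure_closedBall_lt_top).ne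
    set A : ℝ := (volume E).toReal with hA
    have hA0 : 0 ≤ A := ENNReal.toReal_nonneg
    rw [← ENNReal.ofReal_toReal hfin]
    apply ENNReal.ofReal_le_ofReal
    rcases hA0.eq_or_lt with h0 | hApos
    · rw [← hA, ← h0]; positivity
    have hn : ∀ n : ℕ, A ^ (d ^ n) * (‖a‖ ^ (ee d n)) ^ 2 ≤ Real.pi ^ (d ^ n) * ρ ^ 2 := by
      intro n
      obtain ⟨h1, h2⟩ := pn_spec hT c n
      have hN1 : 1 ≤ (pn T c (n + 1)).natDegree := by
        rw [h1]; exact Nat.one_le_pow _ _ (by omega)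
      have h3 := polya hN1 hρ0.le
      rw [h1, h2, norm_pow] at h3
      have h4 : A ≤ (volume {z : ℂ | ‖(pn T c (n + 1)).eval z‖ ≤ ρ}).toReal :=
        ENNReal.toReal_mono (isCompact_sublevel hN1 ρ).measure_lt_top.ne (measure_mono (hsub n))
      refine le_trans ?_ h3
      gcongr
    have hlog : ∀ n : ℕ, Real.log A + 2 * ((ee d n : ℝ) / (d : ℝ) ^ n) * Real.log ‖a‖ ≤
        Real.log Real.pi + 2 * Real.log ρ * ((d : ℝ) ^ n)⁻¹ := by
      intro n
      have h1 := Real.log_le_log (by positivity) (hn n)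
      rw [Real.log_mul (by positivity) (by positivity), Real.log_mul (by positivity) (by positivity),
        Real.log_pow, Real.log_pow, Real.log_pow, Real.log_pow, Real.log_pow] at h1
      push_cast at h1
      have h2 : (0 : ℝ) < (d : ℝ) ^ n := by positivity
      have h3 : ((d : ℝ) ^ n) * (Real.log A + 2 * ((ee d n : ℝ) / (d : ℝ) ^ n) * Real.log ‖a‖) ≤
          ((d : ℝ) ^ n) * (Real.log Real.pi + 2 * Real.log ρ * ((d : ℝ) ^ n)⁻¹) := by
        have e1 : ((d : ℝ) ^ n) * (Real.log A + 2 * ((ee d n : ℝ) / (d : ℝ) ^ n) * Real.log ‖a‖) =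
            (d : ℝ) ^ n * Real.log A + 2 * (ee d n * Real.log ‖a‖) := by field_simp
        have e2 : ((d : ℝ) ^ n) * (Real.log Real.pi + 2 * Real.log ρ * ((d : ℝ) ^ n)⁻¹) =
            (d : ℝ) ^ n * Real.log Real.pi + 2 * Real.log ρ := by field_simp
        rw [e1, e2]
        linarith
      exact le_of_mul_le_mul_left h3 h2
    have hlim1 : Tendsto (fun n : ℕ => Real.log A + 2 * ((ee d n : ℝ) / (d : ℝ) ^ n) * Real.log ‖a‖)
        atTop (𝓝 (Real.log A + 2 * (1 / ((d : ℝ) - 1)) * Real.log ‖a‖)) :=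
      (((ee_lim hT).const_mul 2).mul_const _).const_add _
    have hlim2 : Tendsto (fun n : ℕ => Real.log Real.pi + 2 * Real.log ρ * ((d : ℝ) ^ n)⁻¹) atTop
        (𝓝 (Real.log Real.pi + 2 * Real.log ρ * 0)) :=
      (((tendsto_pow_atTop_atTop_of_one_lt hd1).inv_tendsto_atTop).const_mul _).const_add _
    have h1 := le_of_tendsto_of_tendsto' hlim1 hlim2 hlog
    rw [mul_zero, add_zero] at h1
    have h2 : Real.log A ≤ Real.log (Real.pi * ‖a‖ ^ (-(2 / ((d : ℝ) - 1)))) := by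
      rw [Real.log_mul hpi.ne' (by positivity), Real.log_rpow han]
      have : 2 * (1 / ((d : ℝ) - 1)) * Real.log ‖a‖ = 2 / ((d : ℝ) - 1) * Real.log ‖a‖ := by ring
      rw [this] at h1
      linarith
    exact (Real.log_le_log_iff hApos (by positivity)).mp h2
  have hU : EC T c = ⋃ L : ℕ, EC T c ∩ closedBall 0 (L : ℝ) := by
    rw [← inter_iUnion, iUnion_closedBall_nat, inter_univ]
  have hmono : Monotone (fun L : ℕ => EC T c ∩ closedBall 0 (L : ℝ)) := by
    intro i j hij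
    apply inter_subset_inter_right
    exact closedBall_subset_closedBall (by exact_mod_cast hij)
  rw [hU, hmono.measure_iUnion]
  exact iSup_le key

end Pool.Agent.H713R2.PD

namespace Pool.Agent.H713R2.PD

/-- All critical points escape. -/
def AllEscape (S : ℂ[X]) : Prop :=
  ∀ c : ℂ, S.derivative.eval c = 0 →
    Tendsto (fun k : ℕ => ‖(fun w : ℂ => S.eval w)^[k] c‖) atTop atTop

theorem area_main {T : ℂ[X]} (hT : 2 ≤ T.natDegree) :
    volume {t : ℂ | ¬ AllEscape (T + C t)} ≤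
      ENNReal.ofReal ((T.derivative.roots.toFinset.card : ℝ) *
        (Real.pi * ‖T.leadingCoeff‖ ^ (-(2 / ((T.natDegree : ℝ) - 1))))) := by
  have hpi := Real.pi_pos
  have hT' : T.derivative ≠ 0 := by
    intro h
    have := derivative_eq_zero.mp h
    omega
  have hsub : {t : ℂ | ¬ AllEscape (T + C t)} ⊆ ⋃ c ∈ T.derivative.roots.toFinset, EC T c := by
    intro t ht
    have ht' : ¬ AllEscape (T + C t) := ht
    unfold AllEscape at ht'
    push Not at ht'
    obtain ⟨c, hc1, hc2⟩ := ht'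
    rw [derivative_add, derivative_C, add_zero] at hc1
    rw [mem_iUnion₂]
    refine ⟨c, ?_, hc2⟩
    rw [Multiset.mem_toFinset, mem_roots hT']
    exact hc1
  refine (measure_mono hsub).trans ((measure_biUnion_finset_le _ _).trans ?_)
  refine (Finset.sum_le_sum fun c _ => area_EC hT c).trans ?_
  rw [Finset.sum_const, nsmul_eq_mul, ENNReal.ofReal_mul (Nat.cast_nonneg _), ENNReal.ofReal_natCast]

theorem exists_main {T : ℂ[X]} (hT : 2 ≤ T.natDegree) {r : ℝ}
    (hr : √(T.derivative.roots.toFinset.card : ℝ) * ‖T.leadingCoeff‖ ^ (-(1 / ((T.natDegree : ℝ) - 1)))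
      < r) (T₀ : ℂ) :
    ∃ t : ℂ, ‖t - T₀‖ < r ∧ AllEscape (T + C t) := by
  have hpi := Real.pi_pos
  set κ : ℝ := ‖T.leadingCoeff‖ ^ (-(1 / ((T.natDegree : ℝ) - 1))) with hκ
  have hκ0 : 0 ≤ κ := by positivity
  have hr0 : 0 < r := lt_of_le_of_lt (by positivity) hr
  by_contra hcon
  push Not at hcon
  have hsub : ball T₀ r ⊆ {t : ℂ | ¬ AllEscape (T + C t)} := by
    intro t ht
    rw [mem_ball_iff_norm] at ht
    exact hcon t ht
  have h1 := (measure_mono hsub).trans (area_main hT)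
  have h2 : volume (ball T₀ r) = ENNReal.ofReal (Real.pi * r ^ 2) := by
    rw [Complex.volume_ball, ← ENNReal.ofReal_pow hr0.le, mul_comm, ENNReal.ofReal_mul hpi.le]
    congr 1
    rw [← NNReal.coe_real_pi, ENNReal.ofReal_coe_nnreal]
  rw [h2, ENNReal.ofReal_le_ofReal_iff (by positivity)] at h1
  have h3 : ‖T.leadingCoeff‖ ^ (-(2 / ((T.natDegree : ℝ) - 1))) = κ ^ 2 := by
    rw [hκ, ← Real.rpow_natCast, ← Real.rpow_mul (norm_nonneg _)]
    congr 1
    push_cast; ring
  rw [h3] at h1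
  have h4 : (√(T.derivative.roots.toFinset.card : ℝ) * κ) ^ 2 < r ^ 2 :=
    pow_lt_pow_left₀ hr (by positivity) two_ne_zero
  rw [mul_pow, Real.sq_sqrt (Nat.cast_nonneg _)] at h4
  nlinarith

end Pool.Agent.H713R2.PD
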